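import Pool.Agent.Q125.PV.Stm
import Mathlib.Tactic

/-!
Jobs PV-COL: `t_DSJ : S_DSJ` and `t_COL : S_DSJ → S_RND → S_COL`.
-/

set_option autoImplicit false

namespace Pool.Agent.Q153.PV

open Pool.Agent.Q125.PV

theorem t_DSJ : S_DSJ := by
  intro V κ _ _ k J D hD
  have key : ∀ n : ℕ, ∀ J : Finset κ, J.card ≤ n → (∀ j ∈ J, k * n ≤ (D j).card) →
      ∃ E : κ → Finset V, (∀ j ∈ J, E j ⊆ D j ∧ (E j).card = k) ∧
        ∀ j ∈ J, ∀ j' ∈ J, j ≠ j' → Disjoint (E j) (E j') := by
    intro n J
    induction J using Finset.induction_on with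
    | empty =>
      intro _ _
      exact ⟨fun _ => ∅, by simp, by simp⟩
    | insert a J ha ih =>
      intro hc hD
      rw [Finset.card_insert_of_notMem ha] at hc
      obtain ⟨E, hE, hdis⟩ := ih (by omega) (fun j hj => hD j (Finset.mem_insert_of_mem hj))
      have hW : (J.biUnion E).card ≤ J.card * k := by
        apply Finset.card_biUnion_le_card_mul
        intro j hj
        exact (hE j hj).2.le
      have hDa : k * n ≤ (D a).card := hD a (Finset.mem_insert_self _ _)
      have h1 : k ≤ (D a \ J.biUnion E).card := by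
        have h2 := Finset.le_card_sdiff (J.biUnion E) (D a)
        have h3 : J.card * k + k ≤ k * n := by
          calc J.card * k + k = k * (J.card + 1) := by ring
            _ ≤ k * n := Nat.mul_le_mul_left _ hc
        omega
      obtain ⟨X, hX, hXc⟩ := Finset.exists_subset_card_eq h1
      have hXd : ∀ j ∈ J, Disjoint X (E j) := by
        intro j hj
        rw [Finset.disjoint_left]
        intro v hv hv'
        have := Finset.mem_sdiff.1 (hX hv)
        exact this.2 (Finset.mem_biUnion.2 ⟨j, hj, hv'⟩)
      have hne : ∀ j ∈ J, j ≠ a := fun j hj h => ha (h ▸ hj)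
      refine ⟨Function.update E a X, ?_, ?_⟩
      · intro j hj
        rcases Finset.mem_insert.1 hj with rfl | hj
        · rw [Function.update_self]
          exact ⟨fun v hv => (Finset.mem_sdiff.1 (hX hv)).1, hXc⟩
        · rw [Function.update_of_ne (hne j hj)]
          exact hE j hj
      · intro j hj j' hj' hjj
        rcases Finset.mem_insert.1 hj with hja | hjJ
        · rcases Finset.mem_insert.1 hj' with hja' | hjJ'
          · exact absurd (hja.trans hja'.symm) hjj
          · rw [hja, Function.update_self, Function.update_of_ne (hne j' hjJ')]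
            exact hXd j' hjJ'
        · rcases Finset.mem_insert.1 hj' with hja' | hjJ'
          · rw [hja', Function.update_self, Function.update_of_ne (hne j hjJ)]
            exact (hXd j hjJ).symm
          · rw [Function.update_of_ne (hne j hjJ), Function.update_of_ne (hne j' hjJ')]
            exact hdis j hjJ j' hjJ' hjj
  exact key J.card J le_rfl hD

theorem t_COL : S_DSJ → S_RND → S_COL := by
  intro hDSJ hRND V κ κ' _ _ _ t k R F f₀ J D' q I D ht hk hkJ hD' hD hsum
  classical
  obtain ⟨E, hE, hdis⟩ := hDSJ V κ' k J D' (fun j hj => hkJ.trans (hD' j hj).2)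
  have hW : (J.biUnion E).card ≤ R := by
    have : (J.biUnion E).card ≤ J.card * k := by
      apply Finset.card_biUnion_le_card_mul
      intro j hj
      exact (hE j hj).2.le
    calc (J.biUnion E).card ≤ J.card * k := this
      _ = k * J.card := Nat.mul_comm _ _
      _ ≤ R := hkJ
  have ht1 : (1 : ℝ) ≤ t := by exact_mod_cast ht
  have h0 : 0 ≤ 1 - 1 / (t : ℝ) := by
    have : 1 / (t : ℝ) ≤ 1 := by
      rw [div_le_one (by linarith)]
      exact ht1
    linarith
  have h1 : 1 - 1 / (t : ℝ) ≤ 1 := by
    have : 0 ≤ 1 / (t : ℝ) := by positivity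
    linarith
  obtain ⟨f₁, hf₁⟩ := hRND V κ t k I (fun i => D i \ J.biUnion E) ht hk (by
    refine lt_of_le_of_lt ?_ hsum
    apply Finset.sum_le_sum
    intro i hi
    apply mul_le_mul_of_nonneg_left _ (by positivity)
    apply pow_le_pow_of_le_one h0 h1
    apply Nat.div_le_div_right
    have := Finset.le_card_sdiff (J.biUnion E) (D i)
    omega)
  refine ⟨fun v => if v ∈ F then (if h : ∃ j ∈ J, v ∈ E j then q h.choose else f₁ v) else f₀ v,
    ?_, ?_, ?_⟩
  · intro v hv
    simp [hv]
  · intro j hj
    rw [← (hE j hj).2]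
    apply Finset.card_le_card
    intro v hv
    have hvD := (hE j hj).1 hv
    have hvF := (hD' j hj).1 hvD
    rw [Finset.mem_filter]
    refine ⟨hvD, ?_⟩
    have hex : ∃ j ∈ J, v ∈ E j := ⟨j, hj, hv⟩
    beta_reduce
    rw [if_pos hvF, dif_pos hex]
    have hspec := hex.choose_spec
    by_contra hne
    have hne' : hex.choose ≠ j := fun h => hne (by rw [h])
    exact Finset.disjoint_left.1 (hdis _ hspec.1 j hj hne') hspec.2 hv
  · intro i hi a
    refine (hf₁ i hi a).trans ?_
    apply Finset.card_le_card
    intro v hv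
    rw [Finset.mem_filter, Finset.mem_sdiff] at hv
    rw [Finset.mem_filter]
    refine ⟨hv.1.1, ?_⟩
    have hvF := hD i hi hv.1.1
    have hnex : ¬ ∃ j ∈ J, v ∈ E j := by
      rintro ⟨j, hj, hvj⟩
      exact hv.1.2 (Finset.mem_biUnion.2 ⟨j, hj, hvj⟩)
    beta_reduce
    rw [if_pos hvF, dif_neg hnex]
    exact hv.2

end Pool.Agent.Q153.PV
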