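import Pool.Agent.Q125.PV.Stm
import Mathlib.Tactic
import Mathlib.GroupTheory.Perm.ViaEmbedding

/-!
Job PV-CLS: `t_CLS : S_CLS` (closing up the paths of a path system gives an allowed permutation).
-/

set_option autoImplicit false

namespace Pool.Agent.Q153.PV

open Pool.Agent.Q125.PV

theorem t_CLS : S_CLS := by
  intro V _ _ r Z Z' M m P hT hd hZ hZ' hP
  classical
  let ι : (Σ c : Fin M, Fin (m c + 1)) ↪ V :=
    ⟨fun x => P x.1 x.2, by
      rintro ⟨c, j⟩ ⟨c', j'⟩ h
      obtain ⟨h1, h2⟩ := hP.inj c c' j j' (by have := j.2; omega) (by have := j'.2; omega) h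
      subst h1
      have : j = j' := Fin.ext h2
      rw [this]⟩
  let σ : Equiv.Perm (Σ c : Fin M, Fin (m c + 1)) :=
    Equiv.sigmaCongrRight (fun c => finRotate (m c + 1))
  have hι : ∀ c (j : Fin (m c + 1)), ι ⟨c, j⟩ = P c j := fun _ _ => rfl
  have hσ : ∀ c (j : Fin (m c + 1)), σ ⟨c, j⟩ = ⟨c, finRotate (m c + 1) j⟩ := fun _ _ => rfl
  have hstep : ∀ c j, j < m c → (σ.viaEmbedding ι) (P c j) = P c (j + 1) := by
    intro c j hj
    have h1 : P c j = ι ⟨c, ⟨j, by omega⟩⟩ := rfl
    rw [h1, Equiv.Perm.viaEmbedding_apply, hσ, hι]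
    rw [finRotate_of_lt hj]
  have hlast : ∀ c, (σ.viaEmbedding ι) (P c (m c)) = P c 0 := by
    intro c
    have h1 : P c (m c) = ι ⟨c, ⟨m c, by omega⟩⟩ := rfl
    rw [h1, Equiv.Perm.viaEmbedding_apply, hσ, hι]
    rw [finRotate_last']
  have hout : ∀ v, v ∉ vts m P → (σ.viaEmbedding ι) v = v := by
    intro v hv
    apply Equiv.Perm.viaEmbedding_apply_of_notMem
    rintro ⟨⟨c, j⟩, hx⟩
    apply hv
    unfold vts vtc
    rw [Finset.mem_biUnion]
    refine ⟨c, Finset.mem_univ _, ?_⟩
    rw [Finset.mem_image]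
    exact ⟨j, Finset.mem_range.2 j.2, hx⟩
  have hmem : ∀ v, v ∈ vts m P → ∃ c j, j ≤ m c ∧ P c j = v := by
    intro v hv
    unfold vts vtc at hv
    rw [Finset.mem_biUnion] at hv
    obtain ⟨c, -, hc⟩ := hv
    rw [Finset.mem_image] at hc
    obtain ⟨j, hj, hjv⟩ := hc
    rw [Finset.mem_range] at hj
    exact ⟨c, j, by omega, hjv⟩
  have hmem' : ∀ c j, j ≤ m c → P c j ∈ vts m P := by
    intro c j hj
    unfold vts vtc
    rw [Finset.mem_biUnion]
    exact ⟨c, Finset.mem_univ _, Finset.mem_image.2 ⟨j, Finset.mem_range.2 (by omega), rfl⟩⟩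
  -- all of `Z` and of `Z'` is used
  have hZim : ∀ z ∈ Z, ∃ c, P c 0 = z := by
    have hsub : Finset.univ.image (fun c => P c 0) ⊆ Z := by
      intro v hv
      rw [Finset.mem_image] at hv
      obtain ⟨c, -, rfl⟩ := hv
      exact hP.st c
    have hcard : (Finset.univ.image (fun c => P c 0)).card = M := by
      rw [Finset.card_image_of_injective, Finset.card_univ, Fintype.card_fin]
      intro c c' h
      exact (hP.inj c c' 0 0 (Nat.zero_le _) (Nat.zero_le _) h).1
    have heq := Finset.eq_of_subset_of_card_le hsub (by omega)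
    intro z hz
    rw [← heq, Finset.mem_image] at hz
    obtain ⟨c, -, h⟩ := hz
    exact ⟨c, h⟩
  have hZim' : ∀ z ∈ Z', ∃ c, P c (m c) = z := by
    have hsub : Finset.univ.image (fun c => P c (m c)) ⊆ Z' := by
      intro v hv
      rw [Finset.mem_image] at hv
      obtain ⟨c, -, rfl⟩ := hv
      exact hP.en c
    have hcard : (Finset.univ.image (fun c => P c (m c))).card = M := by
      rw [Finset.card_image_of_injective, Finset.card_univ, Fintype.card_fin]
      intro c c' h
      exact (hP.inj c c' (m c) (m c') le_rfl le_rfl h).1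
    have heq := Finset.eq_of_subset_of_card_le hsub (by omega)
    intro z hz
    rw [← heq, Finset.mem_image] at hz
    obtain ⟨c, -, h⟩ := hz
    exact ⟨c, h⟩
  refine ⟨σ.viaEmbedding ι, ?_, hstep, hout, ?_⟩
  · intro u
    by_cases hu : u ∈ vts m P
    · obtain ⟨c, j, hj, rfl⟩ := hmem u hu
      rcases Nat.lt_or_ge j (m c) with hlt | hge
      · right
        refine ⟨?_, ?_, ?_⟩
        · intro h
          obtain ⟨c', hc'⟩ := hZim' _ h
          obtain ⟨h1, h2⟩ := hP.inj c' c (m c') j le_rfl hj hc'
          subst h1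
          omega
        · rw [hstep c j hlt]
          intro h
          obtain ⟨c', hc'⟩ := hZim _ h
          obtain ⟨h1, h2⟩ := hP.inj c' c 0 (j + 1) (Nat.zero_le _) (by omega) hc'
          omega
        · right
          rw [hstep c j hlt]
          exact hP.arc c j hlt
      · have hjm : j = m c := le_antisymm hj hge
        subst hjm
        left
        rw [hlast]
        exact ⟨hP.en c, hP.st c⟩
    · right
      rw [hout u hu]
      refine ⟨?_, ?_, Or.inl rfl⟩
      · intro h
        obtain ⟨c, rfl⟩ := hZim' _ h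
        exact hu (hmem' c (m c) le_rfl)
      · intro h
        obtain ⟨c, rfl⟩ := hZim _ h
        exact hu (hmem' c 0 (Nat.zero_le _))
  · have hsub : (Finset.univ.filter (fun u => u ∉ Z' ∧ (σ.viaEmbedding ι) u ≠ u)) ⊆
        Finset.univ.biUnion (fun c => (Finset.range (m c)).image (P c)) := by
      intro u hu
      rw [Finset.mem_filter] at hu
      obtain ⟨-, huZ, hne⟩ := hu
      by_cases huv : u ∈ vts m P
      · obtain ⟨c, j, hj, rfl⟩ := hmem u huv
        rw [Finset.mem_biUnion]
        refine ⟨c, Finset.mem_univ _, Finset.mem_image.2 ⟨j, ?_, rfl⟩⟩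
        rw [Finset.mem_range]
        rcases Nat.lt_or_ge j (m c) with hlt | hge
        · exact hlt
        · have hjm : j = m c := le_antisymm hj hge
          subst hjm
          exact absurd (hP.en c) huZ
      · exact absurd (hout u huv) hne
    refine (Finset.card_le_card hsub).trans (Finset.card_biUnion_le.trans ?_)
    apply Finset.sum_le_sum
    intro c _
    exact (Finset.card_image_le).trans (by rw [Finset.card_range])

end Pool.Agent.Q153.PV
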