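import Pool.Agent.Q125.PV.Stm
import Mathlib.Tactic

/-!
Job PV-LNU: `t_LNU : S_LNK → S_LNU` (linking inside a set of vertices).
-/

set_option autoImplicit false

namespace Pool.Agent.Q153.PV

open Pool.Agent.Q125.PV

theorem mem_vts_iff {V : Type} [DecidableEq V] {M : ℕ} (m : Fin M → ℕ) (P : Fin M → ℕ → V)
    (v : V) : v ∈ vts m P ↔ ∃ c j, j ≤ m c ∧ P c j = v := by
  unfold vts vtc
  rw [Finset.mem_biUnion]
  constructor
  · rintro ⟨c, -, hc⟩
    rw [Finset.mem_image] at hc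
    obtain ⟨j, hj, hjv⟩ := hc
    rw [Finset.mem_range] at hj
    exact ⟨c, j, by omega, hjv⟩
  · rintro ⟨c, j, hj, hjv⟩
    exact ⟨c, Finset.mem_univ _, Finset.mem_image.2 ⟨j, Finset.mem_range.2 (by omega), hjv⟩⟩

theorem lout_lift {V : Type} [Fintype V] [DecidableEq V] (r : V → V → Prop) [DecidableRel r]
    (U : Finset V) (r' : {x // x ∈ U} → {x // x ∈ U} → Prop) [DecidableRel r']
    (hr : ∀ a b, r' a b ↔ r a b) (K : ℕ) {M : ℕ} (m : Fin M → ℕ)
    (P' : Fin M → ℕ → {x // x ∈ U}) (h : LOut r' Finset.univ K m P') :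
    LOut r U K m (fun c j => (P' c j : V)) := by
  have hv : ∀ v : {x // x ∈ U}, (v : V) ∈ vts m (fun c j => (P' c j : V)) ↔ v ∈ vts m P' := by
    intro v
    rw [mem_vts_iff, mem_vts_iff]
    constructor
    · rintro ⟨c, j, hj, h⟩
      exact ⟨c, j, hj, Subtype.ext h⟩
    · rintro ⟨c, j, hj, h⟩
      exact ⟨c, j, hj, by rw [h]⟩
  have hvU : ∀ v, v ∈ vts m (fun c j => (P' c j : V)) → v ∈ U := by
    intro v hv
    rw [mem_vts_iff] at hv
    obtain ⟨c, j, -, rfl⟩ := hv
    exact (P' c j).2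
  have e1 : ∀ u' : {x // x ∈ U}, (outN r (u' : V) ∩ vts m (fun c j => (P' c j : V))).card =
      (outN r' u' ∩ vts m P').card := by
    intro u'
    rw [← Finset.card_map (Function.Embedding.subtype (· ∈ U))]
    congr 1
    ext v
    simp only [Finset.mem_inter, outN, Finset.mem_filter, Finset.mem_univ, true_and,
      Finset.mem_map, Function.Embedding.coe_subtype]
    constructor
    · rintro ⟨h1, h2⟩
      refine ⟨⟨v, hvU v h2⟩, ⟨(hr _ _).2 h1, (hv _).1 h2⟩, rfl⟩
    · rintro ⟨w, ⟨h1, h2⟩, rfl⟩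
      exact ⟨(hr _ _).1 h1, (hv _).2 h2⟩
  have e2 : ∀ u' : {x // x ∈ U},
      ((outN r (u' : V) ∩ U) \ vts m (fun c j => (P' c j : V))).card =
      ((outN r' u' ∩ Finset.univ) \ vts m P').card := by
    intro u'
    rw [← Finset.card_map (Function.Embedding.subtype (· ∈ U))]
    congr 1
    ext v
    simp only [Finset.mem_inter, outN, Finset.mem_filter, Finset.mem_univ, true_and,
      Finset.mem_map, Function.Embedding.coe_subtype, Finset.mem_sdiff, and_true]
    constructor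
    · rintro ⟨⟨h1, h2⟩, h3⟩
      refine ⟨⟨v, h2⟩, ⟨(hr _ _).2 h1, fun h => h3 ((hv _).2 h)⟩, rfl⟩
    · rintro ⟨w, ⟨h1, h2⟩, rfl⟩
      exact ⟨⟨(hr _ _).1 h1, w.2⟩, fun h => h2 ((hv _).1 h)⟩
  refine ⟨?_, ?_⟩
  · intro u hu huP
    have h1 := h.a ⟨u, hu⟩ (Finset.mem_univ _) (fun hh => huP ((hv _).2 hh))
    rw [← e1 ⟨u, hu⟩, ← e2 ⟨u, hu⟩] at h1
    exact h1
  · intro c j hj hjm
    have h1 := h.b c j hj hjm
    rw [← e2 (P' c j)] at h1
    exact h1

theorem rch_lift {V : Type} (r : V → V → Prop) (U W : Finset V)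
    (W' : Finset {x // x ∈ U}) (hW : ∀ v : {x // x ∈ U}, (v : V) ∈ W → v ∈ W')
    (hWU : W ⊆ U) (u v : {x // x ∈ U}) (h : Rch r W u v) :
    Rch (fun a b : {x // x ∈ U} => r a b) W' u v := by
  unfold Rch at h ⊢
  have key : ∀ y : V, Relation.ReflTransGen (fun a b => a ∈ W ∧ b ∈ W ∧ r a b) (u : V) y →
      ∀ hy : y ∈ U, Relation.ReflTransGen
        (fun a b : {x // x ∈ U} => a ∈ W' ∧ b ∈ W' ∧ r a b) u ⟨y, hy⟩ := by
    intro y hy
    induction hy with
    | refl => intro _; exact Relation.ReflTransGen.refl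
    | tail _ hab ih =>
      intro hb
      obtain ⟨ha, hb', hrab⟩ := hab
      exact (ih (hWU ha)).tail ⟨hW _ ha, hW _ hb', hrab⟩
  exact key v h v.2

theorem t_LNU : S_LNK → S_LNU := by
  intro hLNK V _ _ r _ U Z Z' M H hT hZU hZ'U hd hZ hZ' hKS hM hMH
  have hT' : Tour (fun a b : {x // x ∈ U} => r a b) := by
    refine ⟨fun v => hT.1 v, fun u v huv => hT.2 u v (fun h => huv (Subtype.ext h))⟩
  have hcZ : ∀ Y : Finset V, Y ⊆ U → (Y.subtype (· ∈ U)).card = Y.card := by
    intro Y hY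
    rw [Finset.card_subtype]
    congr 1
    exact Finset.filter_true_of_mem (fun v hv => hY hv)
  have hKS' : KS (fun a b : {x // x ∈ U} => r a b) H Finset.univ := by
    refine ⟨?_, ?_⟩
    · rw [Finset.card_univ, Fintype.card_coe]
      exact hKS.1
    · intro S _ hS u hu v hv
      have hmem : ∀ w : {x // x ∈ U},
          (w : V) ∈ S.map (Function.Embedding.subtype (· ∈ U)) ↔ w ∈ S := by
        intro w
        rw [Finset.mem_map]
        constructor
        · rintro ⟨a, ha, haw⟩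
          have : a = w := Subtype.ext haw
          rwa [this] at ha
        · intro hw
          exact ⟨w, hw, rfl⟩
      have hsub : S.map (Function.Embedding.subtype (· ∈ U)) ⊆ U := by
        intro w hw
        rw [Finset.mem_map] at hw
        obtain ⟨a, -, rfl⟩ := hw
        exact a.2
      have h1 := hKS.2 (S.map (Function.Embedding.subtype (· ∈ U))) hsub
        (by rw [Finset.card_map]; exact hS) u (by
          rw [Finset.mem_sdiff, hmem]
          exact ⟨u.2, (Finset.mem_sdiff.1 hu).2⟩) v (by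
          rw [Finset.mem_sdiff, hmem]
          exact ⟨v.2, (Finset.mem_sdiff.1 hv).2⟩)
      refine rch_lift r U _ _ ?_ Finset.sdiff_subset u v h1
      intro w hw
      rw [Finset.mem_sdiff, hmem] at hw
      rw [Finset.mem_sdiff]
      exact ⟨Finset.mem_univ _, hw.2⟩
  obtain ⟨m, P', hPS, hL1, hL2⟩ := hLNK {x // x ∈ U} (fun a b => r a b)
    (Z.subtype (· ∈ U)) (Z'.subtype (· ∈ U)) M H hT' (by
      rw [Finset.disjoint_left]
      intro v hv hv'
      rw [Finset.mem_subtype] at hv hv'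
      exact Finset.disjoint_left.1 hd hv hv')
    (by rw [hcZ Z hZU, hZ]) (by rw [hcZ Z' hZ'U, hZ']) hKS' hM hMH
  refine ⟨m, fun c j => (P' c j : V), ?_, ?_, ?_⟩
  · refine ⟨?_, ?_, ?_, ?_, ?_⟩
    · intro c
      exact Finset.mem_subtype.1 (hPS.st c)
    · intro c
      exact Finset.mem_subtype.1 (hPS.en c)
    · intro c j _
      exact (P' c j).2
    · intro c j hj
      exact hPS.arc c j hj
    · intro c c' j j' hj hj' h
      exact hPS.inj c c' j j' hj hj' (Subtype.ext h)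
  · exact lout_lift r U _ (fun _ _ => Iff.rfl) _ m P' hL1
  · exact lout_lift (rv r) U _ (fun _ _ => Iff.rfl) _ m (revP m P') hL2

end Pool.Agent.Q153.PV
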