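import Pool.Agent.Q125.PV.Stm
import Mathlib.Tactic

/-!
Job PV-SKH: `t_SKH : S_SKH` (degree properties of the skeleton).
-/

set_option autoImplicit false

namespace Pool.Agent.Q153.PV

open Pool.Agent.Q125.PV

theorem t_SKH : S_SKH := by
  intro V _ _ r _ k M ℓ N K Y U A s m P hT hk hM hℓ h16 hAbs hAY hY hU hdeg hN hK hL
  -- basic numerical facts
  have hMM : M * ℓ ≤ k * M ^ 2 * ℓ := by
    have h1 : M ≤ k * M ^ 2 := by
      calc M = 1 * (M * 1) := by ring
        _ ≤ k * (M * M) := Nat.mul_le_mul hk (Nat.mul_le_mul_left _ hM)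
        _ = k * M ^ 2 := by ring
    exact Nat.mul_le_mul_right _ h1
  have hMl : M ≤ M * ℓ := Nat.le_mul_of_pos_right _ hℓ
  have hK2 : 995 * (k * M ^ 2 * ℓ) ≤ K := by omega
  have hK995 : 995 * M ≤ K := by omega
  have hN34 : 3 * N ≤ 4 * K := by omega
  -- a vertex outside `Y` and the paths is ordinary
  have hord : ∀ v, v ∉ Y → v ∉ vts m P → v ∈ ord Y m P := by
    intro v h1 h2
    unfold ord
    rw [Finset.mem_sdiff, Finset.mem_union, not_or]
    exact ⟨Finset.mem_univ _, h1, h2⟩
  refine ⟨hdeg, ?_, ?_⟩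
  · intro u hu
    unfold ord at hu
    rw [Finset.mem_sdiff, Finset.mem_union, not_or] at hu
    obtain ⟨-, huY, huP⟩ := hu
    have huU : u ∈ U := (hU u huP).2 huY
    have hLa := hL.a u huU huP
    set d := (outN r u).card with hd
    -- the bad vertices
    have hbad : 16 * ((Finset.univ.filter (fun v => v ∉ Y ∧ v ∉ Ab r A)).card) ≤ d := by
      have hsub : Finset.univ.filter (fun v => v ∉ Y ∧ v ∉ Ab r A) ⊆
          Finset.univ.biUnion (fun b => Finset.univ.filter
            (fun v => v ∉ Y ∧ ∀ a ∈ A b, r a v)) := by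
        intro v hv
        rw [Finset.mem_filter] at hv
        obtain ⟨-, hvY, hvA⟩ := hv
        unfold Pool.Agent.Q125.PV.Ab at hvA
        rw [Finset.mem_filter] at hvA
        push Not at hvA
        obtain ⟨c, hc⟩ := hvA (Finset.mem_univ _)
        rw [Finset.mem_biUnion]
        refine ⟨c, Finset.mem_univ _, ?_⟩
        rw [Finset.mem_filter]
        refine ⟨Finset.mem_univ _, hvY, ?_⟩
        intro a ha
        have hne : a ≠ v := fun h => hvY (h ▸ hAY c ha)
        exact (hT.2 a v hne).2 (hc a ha)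
      have h1 := (Finset.card_le_card hsub).trans Finset.card_biUnion_le
      have h2 : 2 ^ (ℓ - 1) * (Finset.univ.filter (fun v => v ∉ Y ∧ v ∉ Ab r A)).card ≤
          M * d := by
        calc 2 ^ (ℓ - 1) * (Finset.univ.filter (fun v => v ∉ Y ∧ v ∉ Ab r A)).card
            ≤ 2 ^ (ℓ - 1) * ∑ b : Fin M, (Finset.univ.filter
              (fun v => v ∉ Y ∧ ∀ a ∈ A b, r a v)).card := Nat.mul_le_mul_left _ h1
          _ = ∑ b : Fin M, 2 ^ (ℓ - 1) * (Finset.univ.filter
              (fun v => v ∉ Y ∧ ∀ a ∈ A b, r a v)).card := by rw [Finset.mul_sum]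
          _ ≤ ∑ _b : Fin M, d := Finset.sum_le_sum (fun b _ => hAbs.few b u huY)
          _ = M * d := by rw [Finset.sum_const, Finset.card_univ, Fintype.card_fin, smul_eq_mul]
      rw [← h16] at h2
      have h3 : M * (16 * (Finset.univ.filter (fun v => v ∉ Y ∧ v ∉ Ab r A)).card) ≤ M * d := by
        calc M * (16 * (Finset.univ.filter (fun v => v ∉ Y ∧ v ∉ Ab r A)).card)
            = 16 * M * (Finset.univ.filter (fun v => v ∉ Y ∧ v ∉ Ab r A)).card := by ring
          _ ≤ M * d := h2
      exact Nat.le_of_mul_le_mul_left h3 hM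
    -- the neighbours on the paths
    have hpath : 995 * (outN r u ∩ vts m P).card ≤ 3 * d + 995 * (5 * M) := by
      rcases hLa with h | h
      · omega
      · have h1 : ((outN r u ∩ U) \ vts m P).card ≤ d := by
          apply Finset.card_le_card
          intro v hv
          exact (Finset.mem_inter.1 (Finset.mem_sdiff.1 hv).1).1
        have h2 : M * (995 * (outN r u ∩ vts m P).card) ≤ M * (3 * d) := by
          calc M * (995 * (outN r u ∩ vts m P).card) = 995 * M * (outN r u ∩ vts m P).card := by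
                ring
            _ ≤ K * (outN r u ∩ vts m P).card := Nat.mul_le_mul_right _ hK995
            _ ≤ 3 * M * ((outN r u ∩ U) \ vts m P).card := h
            _ ≤ 3 * M * d := Nat.mul_le_mul_left _ h1
            _ = M * (3 * d) := by ring
        have := Nat.le_of_mul_le_mul_left h2 hM
        omega
    -- the covering
    have hcov : d ≤ Y.card + (outN r u ∩ vts m P).card +
        (Finset.univ.filter (fun v => v ∉ Y ∧ v ∉ Ab r A)).card +
        (outN r u ∩ ord Y m P ∩ Ab r A).card := by
      have hsub : outN r u ⊆ ((Y ∪ (outN r u ∩ vts m P)) ∪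
          Finset.univ.filter (fun v => v ∉ Y ∧ v ∉ Ab r A)) ∪
          (outN r u ∩ ord Y m P ∩ Ab r A) := by
        intro v hv
        by_cases h1 : v ∈ Y
        · exact Finset.mem_union_left _ (Finset.mem_union_left _ (Finset.mem_union_left _ h1))
        by_cases h2 : v ∈ vts m P
        · exact Finset.mem_union_left _ (Finset.mem_union_left _ (Finset.mem_union_right _
            (Finset.mem_inter.2 ⟨hv, h2⟩)))
        by_cases h3 : v ∈ Ab r A
        · exact Finset.mem_union_right _ (Finset.mem_inter.2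
            ⟨Finset.mem_inter.2 ⟨hv, hord v h1 h2⟩, h3⟩)
        · exact Finset.mem_union_left _ (Finset.mem_union_right _ (Finset.mem_filter.2
            ⟨Finset.mem_univ _, h1, h3⟩))
      have h1 := Finset.card_le_card hsub
      have h2 := Finset.card_union_le ((Y ∪ (outN r u ∩ vts m P)) ∪
          Finset.univ.filter (fun v => v ∉ Y ∧ v ∉ Ab r A)) (outN r u ∩ ord Y m P ∩ Ab r A)
      have h3 := Finset.card_union_le (Y ∪ (outN r u ∩ vts m P))
          (Finset.univ.filter (fun v => v ∉ Y ∧ v ∉ Ab r A))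
      have h4 := Finset.card_union_le Y (outN r u ∩ vts m P)
      omega
    have hdN : N ≤ d := hdeg u
    have hY' : Y.card ≤ 3 * (M * ℓ) := by
      rw [← mul_assoc]
      exact hY
    omega
  · intro c j hj hjm
    have hLb := hL.b c j hj hjm
    have hsub : (outN r (P c j) ∩ U) \ vts m P ⊆ outN r (P c j) ∩ ord Y m P := by
      intro v hv
      rw [Finset.mem_sdiff, Finset.mem_inter] at hv
      rw [Finset.mem_inter]
      exact ⟨hv.1.1, hord v ((hU v hv.2).1 hv.1.2) hv.2⟩
    have h1 := Finset.card_le_card hsub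
    calc 3 * ((j - 2) * N) = (j - 2) * (3 * N) := by ring
      _ ≤ (j - 2) * (4 * K) := Nat.mul_le_mul_left _ hN34
      _ = 4 * ((j - 2) * K) := by ring
      _ ≤ 4 * (outN r (P c j) ∩ ord Y m P).card := Nat.mul_le_mul_left _ (hLb.trans h1)

end Pool.Agent.Q153.PV
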