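import Pool.Agent.Q125.PV.Stm
import Mathlib.Tactic

/-!
Job PV-HAL: `t_HAL : S_HAL` (an allowed permutation exists in an `M`-strong digraph).
-/

set_option autoImplicit false

namespace Pool.Agent.Q153.PV

open Pool.Agent.Q125.PV

/-- Hall's condition for the vertices outside `Z'`. -/
theorem hal_cond {V : Type} [Fintype V] [DecidableEq V] (r : V → V → Prop)
    (Z Z' : Finset V) (M H : ℕ) (hKS : KS r H Finset.univ) (hd : Disjoint Z Z')
    (hZ : Z.card = M) (hZ' : Z'.card = M) (hM : M ≤ H) (Q N : Finset V)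
    (hQ : ∀ u ∈ Q, u ∉ Z') (hN : ∀ v, v ∈ N ↔ v ∉ Z ∧ ∃ u ∈ Q, v = u ∨ r u v) :
    Q.card ≤ N.card := by
  by_contra hlt
  push Not at hlt
  have hQN : Q \ Z ⊆ N := by
    intro v hv
    rw [Finset.mem_sdiff] at hv
    exact (hN v).2 ⟨hv.2, v, hv.1, Or.inl rfl⟩
  have hNQ : N ∩ Q = Q \ Z := by
    ext v
    rw [Finset.mem_inter, Finset.mem_sdiff]
    constructor
    · rintro ⟨h1, h2⟩
      exact ⟨h2, ((hN v).1 h1).1⟩
    · rintro ⟨h1, h2⟩
      exact ⟨hQN (Finset.mem_sdiff.2 ⟨h1, h2⟩), h1⟩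
  have e1 := Finset.card_inter_add_card_sdiff N Q
  have e2 := Finset.card_inter_add_card_sdiff Q Z
  have e3 := Finset.card_inter_add_card_sdiff Z Q
  rw [hNQ] at e1
  rw [Finset.inter_comm Z Q] at e3
  -- the set `Y = N \ Q`
  have hY : (N \ Q).card < (Q ∩ Z).card := by omega
  have hS : ((N \ Q) ∪ (Z \ Q)).card < H := by
    have := Finset.card_union_le (N \ Q) (Z \ Q)
    omega
  have hne : (Q ∩ Z).Nonempty := by
    rw [← Finset.card_pos]
    omega
  obtain ⟨q, hq⟩ := hne
  rw [Finset.mem_inter] at hq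
  have hex : ∃ z ∈ Z', z ∉ N \ Q := by
    by_contra hcon
    push Not at hcon
    have : Z'.card ≤ (N \ Q).card := Finset.card_le_card hcon
    omega
  obtain ⟨z, hz, hzY⟩ := hex
  have hzZ : z ∉ Z := fun h => Finset.disjoint_left.1 hd h hz
  have hR := hKS.2 ((N \ Q) ∪ (Z \ Q)) (Finset.subset_univ _) hS q (by
    simp only [Finset.mem_sdiff, Finset.mem_univ, true_and, Finset.mem_union, not_or, not_and,
      not_not]
    exact ⟨fun _ => hq.1, fun _ => hq.1⟩) z (by
    rw [Finset.mem_sdiff, Finset.mem_union, not_or]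
    exact ⟨Finset.mem_univ _, hzY, fun h => hzZ (Finset.mem_sdiff.1 h).1⟩)
  have key : ∀ v, Rch r (Finset.univ \ ((N \ Q) ∪ (Z \ Q))) q v → v ∈ Q := by
    intro v hv
    unfold Rch at hv
    induction hv with
    | refl => exact hq.1
    | tail _ hab ih =>
      rename_i a b _
      obtain ⟨-, hb, hrab⟩ := hab
      by_contra hbQ
      rw [Finset.mem_sdiff, Finset.mem_union, not_or] at hb
      have hbZ : b ∉ Z := fun h => hb.2.2 (Finset.mem_sdiff.2 ⟨h, hbQ⟩)
      apply hb.2.1
      rw [Finset.mem_sdiff]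
      exact ⟨(hN b).2 ⟨hbZ, a, ih, Or.inr hrab⟩, hbQ⟩
  exact hQ z (key z hR) hz

theorem t_HAL : S_HAL := by
  intro V _ _ r Z Z' M H hKS hd hZ hZ' hM
  classical
  have hall : ∀ s : Finset V, s.card ≤
      (s.biUnion (fun u => Finset.univ.filter (fun v => Alw r Z Z' u v))).card := by
    intro s
    have h1 := hal_cond r Z Z' M H hKS hd hZ hZ' hM (s \ Z')
      (Finset.univ.filter (fun v => v ∉ Z ∧ ∃ u ∈ s \ Z', v = u ∨ r u v))
      (fun u hu => (Finset.mem_sdiff.1 hu).2)
      (fun v => by rw [Finset.mem_filter]; simp only [Finset.mem_univ, true_and])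
    have e := Finset.card_inter_add_card_sdiff s Z'
    have hsub1 : (Finset.univ.filter (fun v => v ∉ Z ∧ ∃ u ∈ s \ Z', v = u ∨ r u v)) ⊆
        s.biUnion (fun u => Finset.univ.filter (fun v => Alw r Z Z' u v)) := by
      intro v hv
      rw [Finset.mem_filter] at hv
      obtain ⟨-, hvZ, u, hu, huv⟩ := hv
      rw [Finset.mem_sdiff] at hu
      rw [Finset.mem_biUnion]
      refine ⟨u, hu.1, ?_⟩
      rw [Finset.mem_filter]
      exact ⟨Finset.mem_univ _, Or.inr ⟨hu.2, hvZ, huv⟩⟩
    by_cases hW : (s ∩ Z').Nonempty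
    · obtain ⟨w, hw⟩ := hW
      rw [Finset.mem_inter] at hw
      have hsub2 : Z ⊆ s.biUnion (fun u => Finset.univ.filter (fun v => Alw r Z Z' u v)) := by
        intro v hv
        rw [Finset.mem_biUnion]
        refine ⟨w, hw.1, ?_⟩
        rw [Finset.mem_filter]
        exact ⟨Finset.mem_univ _, Or.inl ⟨hw.2, hv⟩⟩
      have hdis : Disjoint Z
          (Finset.univ.filter (fun v => v ∉ Z ∧ ∃ u ∈ s \ Z', v = u ∨ r u v)) := by
        rw [Finset.disjoint_left]
        intro v hv hv'
        exact (Finset.mem_filter.1 hv').2.1 hv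
      have h2 := Finset.card_le_card (Finset.union_subset hsub2 hsub1)
      rw [Finset.card_union_of_disjoint hdis] at h2
      have h3 : (s ∩ Z').card ≤ Z'.card := Finset.card_le_card Finset.inter_subset_right
      omega
    · rw [Finset.not_nonempty_iff_eq_empty] at hW
      rw [hW, Finset.card_empty] at e
      have h2 := Finset.card_le_card hsub1
      omega
  obtain ⟨f, hf, hft⟩ := (Finset.all_card_le_biUnion_card_iff_exists_injective
    (fun u => Finset.univ.filter (fun v => Alw r Z Z' u v))).1 hall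
  refine ⟨Equiv.ofBijective f (Finite.injective_iff_bijective.1 hf), fun u => ?_⟩
  have := hft u
  rw [Finset.mem_filter] at this
  exact this.2

end Pool.Agent.Q153.PV
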